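import Mathlib
import Pool.Agent.Helper78_Biseq.Defs
import Pool.Agent.Helper78_Biseq.Basic
import Pool.Agent.Helper78_Biseq.Realc
import Pool.Agent.Helper78_Biseq.Lots

set_option autoImplicit false

open Pool.Agent.Helper78_Biseq

namespace Pool.Agent.Results.MP_018dae_gt.LotsImageRealcompact

universe u v

/-- Let the sequential Hausdorff space `X` be a continuous image of a compact linearly ordered space
`K` (these are exactly the compact sequential monotonically normal spaces, by a theorem of
M. E. Rudin which is not used here). Then `X` is hereditarily realcompact if and only if every
countably complete ultrafilter on the set `X` is principal, that is, the cardinality of `X` is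
smaller than the first measurable cardinal. -/
theorem result (K : Type u) [LinearOrder K] [TopologicalSpace K] [OrderTopology K] [CompactSpace K]
    (X : Type v) [TopologicalSpace X] [T2Space X] [SequentialSpace X]
    (f : K → X) (hf : Continuous f) (hs : Function.Surjective f) :
    HereditarilyRealcompact X ↔
      ∀ U : Ultrafilter X, CountableInterFilter (U : Filter X) → ∃ x, U = pure x := by
  have hX : CompactSpace X := ⟨by
    rw [← Set.image_univ_of_surjective hs]
    exact isCompact_univ.image hf⟩
  have hg : ∀ x : X, GoodAt X x := goodAt_of_image f hf hs
  exact ⟨fun h U hU => principal_of_hereditarilyRealcompact hg h U hU,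
    fun h => hereditarilyRealcompact_of_good hg h⟩

end Pool.Agent.Results.MP_018dae_gt.LotsImageRealcompact
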