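import Mathlib
import Pool.Agent.Helper78_Biseq.Defs
import Pool.Agent.Helper52_HN.Defs
import Pool.Agent.Helper52_HN.Main
import Pool.Agent.Helper67_RC.Main

set_option autoImplicit false

open Pool.Agent.Helper78_Biseq Pool.Agent.Helper52_HN

namespace Pool.Agent.Results.MP_018dae_gt.RealcompactImpliesBisequential

universe v

/-- Let `X` be a compact Hausdorff space. If `X` minus any point is realcompact (in particular, if
`X` is hereditarily realcompact), then `X` is bisequential. If `X` minus any point is normal and
countably paracompact, then `X` is bisequential if and only if it is hereditarily realcompact. -/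
theorem result (X : Type v) [TopologicalSpace X] [CompactSpace X] [T2Space X] :
    ((∀ x : X, Realcompact {z : X // z ≠ x}) → Bisequential X) ∧
    ((∀ x : X, NormalSpace {z : X // z ≠ x}) → (∀ x : X, CountablyParacompact {z : X // z ≠ x}) →
      (Bisequential X ↔ HereditarilyRealcompact X)) :=
  ⟨fun h => Pool.Agent.Helper67_RC.bisequential_of_realcompact_compl h, fun hn hcp =>
    ⟨fun h => hereditarilyRealcompact_of_bisequential hn hcp h, fun h =>
      Pool.Agent.Helper67_RC.bisequential_of_hereditarilyRealcompact' h⟩⟩

end Pool.Agent.Results.MP_018dae_gt.RealcompactImpliesBisequential
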