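import Mathlib
import Pool.Agent.Helper78_Biseq.Defs
import Pool.Agent.Helper78_Biseq.Basic
import Pool.Agent.Helper78_Biseq.Realc
import Pool.Agent.Helper52_HN.Defs
import Pool.Agent.Helper52_HN.Main
import Pool.Agent.Helper52_HN.Theta
import Pool.Agent.Helper52_HN.Theta2
import Pool.Agent.Helper67_RC.Main

set_option autoImplicit false

open Pool.Agent.Helper78_Biseq Pool.Agent.Helper52_HN

namespace Pool.Agent.Results.MP_018dae_gt.ThetaRefinableComplements

universe v

/-- Let `X` be a compact Hausdorff space such that `X` minus any point is weakly theta-refinable.
If `X` minus any point is normal and countably paracompact, then `X` is hereditarily realcompact if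
and only if it is bisequential, if and only if every countably complete ultrafilter on the set `X`
is principal. If `X` is hereditarily normal, then `X` is bisequential if and only if every countably
complete ultrafilter on the set `X` is principal. -/
theorem result (X : Type v) [TopologicalSpace X] [CompactSpace X] [T2Space X]
    (hw : ∀ x : X, WeaklyThetaRefinable {z : X // z ≠ x}) :
    ((∀ x : X, NormalSpace {z : X // z ≠ x}) → (∀ x : X, CountablyParacompact {z : X // z ≠ x}) →
      (HereditarilyRealcompact X ↔ Bisequential X) ∧
      (Bisequential X ↔
        ∀ U : Ultrafilter X, CountableInterFilter (U : Filter X) → ∃ x, U = pure x)) ∧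
    ((∀ S : Set X, NormalSpace S) →
      (Bisequential X ↔
        ∀ U : Ultrafilter X, CountableInterFilter (U : Filter X) → ∃ x, U = pure x)) := by
  refine ⟨fun hn hcp => ⟨⟨fun h =>
    Pool.Agent.Helper67_RC.bisequential_of_hereditarilyRealcompact' h,
    fun h => hereditarilyRealcompact_of_bisequential hn hcp h⟩, fun hb U hU =>
    principal_of_bisequential hb U hU, fun hm x U hU => ?_⟩, fun hS => ?_⟩
  · have := hn x
    exact seq_of_neg (neg_of_weaklyThetaRefinable hm x (hcp x) (hw x) hU)
  · have hc : CompletelyNormalSpace X := completelyNormalSpace_iff_forall_normalSpace.2 hS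
    exact ⟨fun hb U hU => principal_of_bisequential hb U hU,
      fun hm => bisequential_of_tame fun x => tame_of_weaklyThetaRefinable hm x (hw x)⟩

end Pool.Agent.Results.MP_018dae_gt.ThetaRefinableComplements
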